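import Mathlib
import Pool.Agent.Q241.OuterFrames

/-!
# Outerplanar graphs have degenerate distance number at most two
-/

namespace Pool.Agent.Results.MP_aa6a81_co.AtMostTwo

open Polynomial Pool.Agent.Q241.OuterFrames

/-- The plane. -/
abbrev Plane : Type := EuclideanSpace ℝ (Fin 2)

/-- `G` is outerplanar: its vertices can be placed on a circle (in the order given by `f`) such
that no two edges, drawn as chords, cross. -/
def IsOuterplanar {V : Type} (G : SimpleGraph V) : Prop :=
  ∃ f : V → ℤ, Function.Injective f ∧ ∀ a b c d : V, G.Adj a c → G.Adj b d →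
    ¬ (f a < f b ∧ f b < f c ∧ f c < f d)

/-- The set of edge lengths of the drawing `p`. -/
def lengths {V : Type} (G : SimpleGraph V) (p : V → Plane) : Set ℝ :=
  {x | ∃ v w : V, G.Adj v w ∧ x = dist (p v) (p w)}

/-- The degenerate distance number. -/
noncomputable def ddn {V : Type} (G : SimpleGraph V) : ℕ :=
  sInf {k | ∃ p : V → Plane, Function.Injective p ∧ (lengths G p).ncard = k}

theorem exists_transcendental : ∃ z : ℂ, ‖z‖ = 1 ∧ Transcendental ℤ z := by
  by_contra hcon
  push Not at hcon
  have hcount : {x : ℂ | IsAlgebraic ℤ x}.Countable := Algebraic.countable ℤ ℂ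
  have hsub : (fun t : ℝ => Complex.exp (t * Complex.I)) '' (Set.Ioo 0 1) ⊆
      {x : ℂ | IsAlgebraic ℤ x} := by
    rintro _ ⟨t, _, rfl⟩
    have := hcon _ (Complex.norm_exp_ofReal_mul_I t)
    unfold Transcendental at this
    exact not_not.mp this
  have hinj : Set.InjOn (fun t : ℝ => Complex.exp (t * Complex.I)) (Set.Ioo 0 1) := by
    intro s hs t ht hst
    have h1 : Real.cos s = Real.cos t := by
      have := congrArg Complex.re hst
      simpa [Complex.exp_ofReal_mul_I_re] using this
    have hpi := Real.pi_gt_three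
    exact Real.injOn_cos ⟨hs.1.le, by linarith [hs.2]⟩ ⟨ht.1.le, by linarith [ht.2]⟩ h1
  have h2 : (Set.Ioo (0 : ℝ) 1).Countable := by
    have := hcount.mono hsub
    exact (Set.countable_of_injective_of_countable_image hinj this)
  rw [Cardinal.Real.Ioo_countable_iff] at h2
  linarith

theorem norm_good {z : ℂ} (hz : ‖z‖ = 1) {d : ℤ[X]} (hd : Good d) :
    ‖aeval z d‖ = 1 ∨ ‖aeval z d‖ = ‖1 - z‖ := by
  obtain ⟨m, h | h | h | h⟩ := hd
  · left; rw [h]; simp [hz]
  · left; rw [h]; simp [hz]
  · right; rw [h]; simp [hz]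
  · right; rw [h]; rw [map_neg, norm_neg]; simp [hz]

/-- Every finite outerplanar graph has a degenerate drawing with at most two edge lengths. -/
theorem result : ∀ (V : Type) [Fintype V] (G : SimpleGraph V), IsOuterplanar G → ddn G ≤ 2 := by
  intro V _ G hG
  classical
  obtain ⟨f, hf, hcr⟩ := hG
  obtain ⟨z, hz, htr⟩ := exists_transcendental
  -- the graph on the integers
  set H : SimpleGraph ℤ := G.map (⟨f, hf⟩ : V ↪ ℤ) with hH
  have hNC : NC H := by
    intro a b c d h1 h2 h3 h4 h5
    rw [hH, SimpleGraph.map_adj] at h4 h5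
    obtain ⟨u, v, huv, rfl, rfl⟩ := h4
    obtain ⟨x, y, hxy, rfl, rfl⟩ := h5
    exact hcr u x v y huv hxy ⟨h1, h2, h3⟩
  -- an interval containing all labels
  obtain ⟨M, hM⟩ : ∃ M : ℕ, ∀ v, -(M : ℤ) < f v ∧ f v < M := by
    refine ⟨(Finset.univ.sup fun v => (f v).natAbs) + 1, ?_⟩
    intro v
    have h1 : (f v).natAbs ≤ Finset.univ.sup fun v => (f v).natAbs :=
      Finset.le_sup (f := fun v => (f v).natAbs) (Finset.mem_univ v)
    push_cast
    omega
  obtain ⟨g, hg⟩ := exists_emb (2 * M) H hNC (-(M : ℤ)) false false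
  have hend : -(M : ℤ) + ((2 * M : ℕ) : ℤ) + 1 = M + 1 := by push_cast; ring
  rw [hend] at hg
  set φ : ℂ ≃ₗᵢ[ℝ] Plane := Complex.orthonormalBasisOneI.repr with hφ
  set p : V → Plane := fun v => φ (aeval z (g (f v))) with hp
  have hpinj : Function.Injective p := by
    intro u v huv
    have h1 : aeval z (g (f u)) = aeval z (g (f v)) := φ.injective huv
    have h2 : g (f u) = g (f v) := by
      have h3 : aeval z (g (f u) - g (f v)) = 0 := by rw [map_sub, h1, sub_self]
      by_contra hne
      exact htr ⟨_, sub_ne_zero.mpr hne, h3⟩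
    exact hf (hg.inj _ _ (hM u).1 (by linarith [(hM u).2]) (hM v).1 (by linarith [(hM v).2]) h2)
  have hsub : lengths G p ⊆ ({1, ‖1 - z‖} : Set ℝ) := by
    have key : ∀ v w : V, G.Adj v w → f v < f w → dist (p v) (p w) ∈ ({1, ‖1 - z‖} : Set ℝ) := by
      intro v w hvw hlt
      have hadj : H.Adj (f v) (f w) := by
        rw [hH, SimpleGraph.map_adj]
        exact ⟨v, w, hvw, rfl, rfl⟩
      have hgood := hg.good (f v) (f w) (hM v).1.le hlt (by linarith [(hM w).2]) hadj
      have hdist : dist (p v) (p w) = ‖aeval z (g (f w) - g (f v))‖ := by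
        rw [dist_comm]
        simp only [hp]
        rw [φ.dist_map, dist_eq_norm, map_sub]
      rw [hdist]
      rcases norm_good hz hgood with h | h
      · exact Or.inl h
      · exact Or.inr h
    rintro x ⟨v, w, hvw, rfl⟩
    rcases lt_trichotomy (f v) (f w) with h | h | h
    · exact key v w hvw h
    · exact absurd (hf h) hvw.ne
    · rw [dist_comm]; exact key w v hvw.symm h
  have hcard : (lengths G p).ncard ≤ 2 := by
    refine le_trans (Set.ncard_le_ncard hsub (Set.toFinite _)) ?_
    refine le_trans (Set.ncard_insert_le _ _) ?_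
    rw [Set.ncard_singleton]
  exact le_trans (Nat.sInf_le ⟨p, hpinj, rfl⟩) hcard

end Pool.Agent.Results.MP_aa6a81_co.AtMostTwo
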